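import Pool.Agent.Lib.MP_514644_pr.R22

/-!
# No half-space contains an infinite tricolor path

For every law `ν` of the colours (every `p`) and every `v` which is not orthogonal to one of the
four main diagonals of the cube: almost surely, along every infinite tricolor path the values of
`v · x` are unbounded below and unbounded above, however many of its first edges are removed.
-/

set_option autoImplicit false

open MeasureTheory

namespace Pool.Agent.Results.MP_514644_pr.HalfSpaces

open MP514644

theorem result (ν : Measure (Fin 3)) [IsProbabilityMeasure ν] (v : Fin 3 → ℝ)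
    (hv : ∀ ε : Fin 3 → ℝ, (∀ i, ε i = 1 ∨ ε i = -1) → ∑ i, v i * ε i ≠ 0) :
    ∀ᵐ c ∂law ν, ∀ e, InfPath c e → ∀ (s : ℝ) (N : ℕ),
      (∃ n, N ≤ n ∧ ∃ x ∈ e n, dot v x < s) ∧ (∃ n, N ≤ n ∧ ∃ x ∈ e n, s < dot v x) :=
  final_one ν v hv

end Pool.Agent.Results.MP_514644_pr.HalfSpaces
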